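import Pool.Agent.H675R2.NonPr

/-!
The lattices of the c.e. subideals of a principal ideal and of a nonprincipal c.e. ideal of the
countable atomless Boolean algebra are never isomorphic.
-/

namespace Pool.Agent.Results.MP_1e98aa_lc.SubidealLattices

/-- A computable presentation of the Boolean algebra `A`: a numbering of the elements of `A` by
natural numbers whose range is computable and for which the operations and the order are
computable. Every decidable presentation is one. -/
structure Presentation (A : Type) [BooleanAlgebra A] where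
  code : A → ℕ
  code_injective : Function.Injective code
  computable_range : ComputablePred fun n => n ∈ Set.range code
  sup : ∃ f : ℕ → ℕ → ℕ, Computable₂ f ∧ ∀ a b, f (code a) (code b) = code (a ⊔ b)
  inf : ∃ f : ℕ → ℕ → ℕ, Computable₂ f ∧ ∀ a b, f (code a) (code b) = code (a ⊓ b)
  compl : ∃ f : ℕ → ℕ, Computable f ∧ ∀ a, f (code a) = code aᶜ
  le : ComputablePred fun p : ℕ × ℕ => ∃ a b, p.1 = code a ∧ p.2 = code b ∧ a ≤ b

/-- The ideal is c.e.: its set of elements (their codes) is computably enumerable. -/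
def IsCE {A : Type} [BooleanAlgebra A] (p : Presentation A) (I : Order.Ideal A) : Prop :=
  REPred fun n => n ∈ p.code '' (I : Set A)

/-- The lattice of the c.e. subideals of `I`, ordered by inclusion. -/
abbrev Lat {A : Type} [BooleanAlgebra A] (p : Presentation A) (I : Order.Ideal A) : Type :=
  {K : Order.Ideal A // IsCE p K ∧ K ≤ I}

open Encodable Pool.Agent.Helper446 Pool.Agent.Helper446.RE Pool.Agent.H675R2

section glue

variable {A : Type} [BooleanAlgebra A] (p : Presentation A)

theorem infinite_of_atomless (hnt : (⊤ : A) ≠ ⊥)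
    (hatomless : ∀ a : A, a ≠ ⊥ → ∃ b : A, b ≠ ⊥ ∧ b < a) : Infinite A := by
  classical
  by_contra hcon
  rw [not_infinite_iff_finite] at hcon
  have hne : {a : A | a ≠ ⊥}.Nonempty := ⟨⊤, hnt⟩
  obtain ⟨a, ha, hmin⟩ := (Finite.to_wellFoundedLT (α := A)).wf.has_min _ hne
  obtain ⟨b, hb, hba⟩ := hatomless a ha
  exact hmin b hb hba

open Classical in
/-- The index of an element. -/
noncomputable def idx (a : A) : ℕ := Nat.count (fun n => n ∈ Set.range p.code) (p.code a)

open Classical in
theorem idx_bijective [Infinite A] : Function.Bijective (idx p) := by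
  have hinf : (Set.range p.code).Infinite := Set.infinite_range_of_injective p.code_injective
  constructor
  · intro a b h
    apply p.code_injective
    unfold idx at h
    exact Nat.count_injective (p := fun n => n ∈ Set.range p.code) ⟨a, rfl⟩ ⟨b, rfl⟩ h
  · intro n
    obtain ⟨a, ha⟩ := Nat.nth_mem_of_infinite (p := fun n => n ∈ Set.range p.code) hinf n
    refine ⟨a, ?_⟩
    unfold idx
    rw [ha]
    exact Nat.count_nth_of_infinite hinf n

open Classical in
theorem count_comp : ∃ c : ℕ → ℕ, Computable c ∧ ∀ a, c (p.code a) = idx p a := by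
  refine ⟨fun n => Nat.count (fun n => n ∈ Set.range p.code) n, ?_, fun a => rfl⟩
  have h := Computable.nat_rec (f := fun n : ℕ => n) (g := fun _ => 0)
    (h := fun _ (q : ℕ × ℕ) => q.2 + (if q.1 ∈ Set.range p.code then 1 else 0))
    (by fun_prop) (by fun_prop) (by
      unfold Computable₂
      have h2 : Computable fun x : ℕ × (ℕ × ℕ) =>
          (if x.2.1 ∈ Set.range p.code then 1 else 0 : ℕ) :=
        cite (cp_comp p.computable_range (by fun_prop)) (by fun_prop) (by fun_prop)
      fun_prop)
  refine h.of_eq fun n => ?_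
  induction n with
  | zero => rfl
  | succ n ih => rw [Nat.count_succ, ← ih]

/-- The coding of the elements by their indices. -/
@[instance_reducible] noncomputable def den [Infinite A] : Denumerable A :=
  Denumerable.mk' (Equiv.ofBijective (idx p) (idx_bijective p))

/-- Equivalent predicates define isomorphic orders. -/
def conv {P Q : Order.Ideal A → Prop} (h : ∀ K, P K ↔ Q K) :
    {K : Order.Ideal A // P K} ≃o {K : Order.Ideal A // Q K} where
  toEquiv := Equiv.subtypeEquivRight h
  map_rel_iff' := Iff.rfl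

theorem main (hnt : (⊤ : A) ≠ ⊥) (hatomless : ∀ a : A, a ≠ ⊥ → ∃ b : A, b ≠ ⊥ ∧ b < a) :
    (∃ J : Order.Ideal A, IsCE p J ∧ (∃ x ∈ J, x ≠ ⊥) ∧ ∀ x, J ≠ Order.Ideal.principal x) ∧
    (∀ x, IsCE p (Order.Ideal.principal x)) ∧
    ∀ (a : A) (J : Order.Ideal A), IsCE p J → (∀ x, J ≠ Order.Ideal.principal x) →
      IsEmpty (Lat p (Order.Ideal.principal a) ≃o Lat p J) := by
  have : Infinite A := infinite_of_atomless hnt hatomless
  let _ : Denumerable A := den p
  have henc : ∀ a : A, encode a = idx p a := fun a => rfl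
  obtain ⟨c, hc, hci⟩ := count_comp p
  have hof : ∀ a : A, Denumerable.ofNat A (c (p.code a)) = a := by
    intro a
    rw [hci, ← henc, Denumerable.ofNat_encode]
  have hofc : Computable fun n : ℕ => Denumerable.ofNat A n := Computable.ofNat A
  have hcode : Computable fun a : A => p.code a := by
    refine computable_of_graph ?_
    have h1 : REPred fun x : A × ℕ => x.2 ∈ Set.range p.code ∧ c x.2 = encode x.1 :=
      RE.and (RE.comp p.computable_range.to_re (by fun_prop))
        (RE.eq (by fun_prop) (by fun_prop))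
    refine h1.of_eq fun x => ?_
    constructor
    · rintro ⟨⟨a, ha⟩, h⟩
      rw [← ha, hci, henc] at h
      rw [(idx_bijective p).1 h.symm, ha]
    · intro h
      rw [← h]
      exact ⟨⟨_, rfl⟩, by rw [hci, henc]⟩
  have hsup : Computable₂ fun a b : A => a ⊔ b := by
    obtain ⟨f, hf, hfs⟩ := p.sup
    have h1 : Computable fun x : A × A => Denumerable.ofNat A (c (f (p.code x.1) (p.code x.2))) :=
      hofc.comp (hc.comp (hf.comp (hcode.comp (by fun_prop)) (hcode.comp (by fun_prop))))
    refine h1.of_eq fun x => ?_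
    rw [hfs, hof]
  have hinf : Computable₂ fun a b : A => a ⊓ b := by
    obtain ⟨f, hf, hfs⟩ := p.inf
    have h1 : Computable fun x : A × A => Denumerable.ofNat A (c (f (p.code x.1) (p.code x.2))) :=
      hofc.comp (hc.comp (hf.comp (hcode.comp (by fun_prop)) (hcode.comp (by fun_prop))))
    refine h1.of_eq fun x => ?_
    rw [hfs, hof]
  have hcompl : Computable fun a : A => aᶜ := by
    obtain ⟨f, hf, hfs⟩ := p.compl
    have h1 : Computable fun x : A => Denumerable.ofNat A (c (f (p.code x))) :=
      hofc.comp (hc.comp (hf.comp hcode))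
    refine h1.of_eq fun x => ?_
    rw [hfs, hof]
  have hmem : ∀ (I : Order.Ideal A) (a : A), a ∈ I ↔ p.code a ∈ p.code '' (I : Set A) := by
    intro I a
    constructor
    · exact fun h => ⟨a, h, rfl⟩
    · rintro ⟨b, hb, h⟩
      rwa [← p.code_injective h]
  have hCE : ∀ I : Order.Ideal A, IsCE p I ↔ REPred fun a => a ∈ I := by
    intro I
    constructor
    · intro h
      exact (RE.comp h hcode).of_eq fun a => (hmem I a).symm
    · intro h
      refine (RE.ex (p := fun (n : ℕ) (a : A) => a ∈ (I : Set A) ∧ p.code a = n) ?_).of_eq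
        fun n => Iff.rfl
      exact RE.and (RE.comp h (by fun_prop)) (RE.eq (by fun_prop) (by fun_prop))
  have hCBA : LJ.CBA A := ⟨hsup, hinf, hcompl⟩
  refine ⟨?_, ?_, ?_⟩
  · obtain ⟨s⟩ := LJ.exists_sys hnt hatomless
    exact ⟨LJ.J s, (hCE _).2 (LJ.J_re s), ⟨s.w 0 0, LJ.w_mem_J s 0 0, s.w_ne 0 0⟩,
      Core.J_not_principal s⟩
  · intro x
    exact (hCE _).2 (LJ.principal_re x)
  · intro a J hJ hnp
    have h1 := NonPr.no_iso hatomless ((hCE J).1 hJ) hnp a
    refine ⟨fun Φ => h1.false ?_⟩
    exact ((conv fun K => and_congr_left fun _ => (hCE K).symm).trans Φ).trans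
      (conv fun K => and_congr_left fun _ => hCE K)

end glue

/-- Let `p` be a computable presentation of the countable atomless Boolean algebra `A`. There
are nontrivial proper c.e. ideals `I` and `J` of `A` such that the lattices of the c.e. subideals
of `I` and of `J` are not isomorphic. More precisely, the lattice of the c.e. subideals of a
principal ideal is never isomorphic to the lattice of the c.e. subideals of a nonprincipal c.e.
ideal. -/
theorem result (A : Type) [BooleanAlgebra A] (p : Presentation A) (hnt : (⊤ : A) ≠ ⊥)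
    (hatomless : ∀ a : A, a ≠ ⊥ → ∃ b : A, b ≠ ⊥ ∧ b < a) :
    (∃ I J : Order.Ideal A, IsCE p I ∧ IsCE p J ∧ (∃ x ∈ I, x ≠ ⊥) ∧ (∃ x ∈ J, x ≠ ⊥) ∧
      ⊤ ∉ I ∧ ⊤ ∉ J ∧ IsEmpty (Lat p I ≃o Lat p J)) ∧
    ∀ (a : A) (J : Order.Ideal A), IsCE p J → (∀ x, J ≠ Order.Ideal.principal x) →
      IsEmpty (Lat p (Order.Ideal.principal a) ≃o Lat p J) := by
  obtain ⟨⟨J, hJ, hJ1, hJ2⟩, h2, h3⟩ := main p hnt hatomless
  refine ⟨?_, h3⟩
  obtain ⟨a, ha, hat⟩ := hatomless ⊤ hnt
  refine ⟨Order.Ideal.principal a, J, h2 a, hJ,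
    ⟨a, Order.Ideal.mem_principal.2 le_rfl, ha⟩, hJ1, ?_, ?_, h3 a J hJ hJ2⟩
  · intro h
    exact absurd hat (not_lt_of_ge (Order.Ideal.mem_principal.1 h))
  · intro h
    apply hJ2 ⊤
    ext x
    exact ⟨fun _ => Order.Ideal.mem_principal.2 le_top, fun _ => J.lower le_top h⟩

end Pool.Agent.Results.MP_1e98aa_lc.SubidealLattices
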